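import Pool.Agent.H239.COL.Fin

/-!
# Escaping orbits near the bounded solutions of the planar three-body problem with a large excursion

Let the energy `E` be negative and let the body `c` be far from the pair `a`, `b`; `X` and `V` are its position and
velocity relative to the centre of mass of the pair, `z = m_a m_b / (E |X|)` and `M` is the total mass.

Along a solution which is defined for all times and has bounded mutual distances (for example a relative periodic one)
`|V|² |X| ≤ 2 M (1 + 240 z²)`: the outer orbit is elliptic up to the quadrupole term of the pair. Conversely almost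
every state with `|V|² |X| > 2 M (1 + 240 z²)` starts a solution which meets no collision and exists for all positive
times (if `⟨X, V⟩ > 0`) or for all negative times (if `⟨X, V⟩ < 0`) and in which the body `c` escapes. The set of
states with a collision of the pair is negligible by Liouville's theorem: the states which are within the time `τ` of
a collision have an angular momentum of the pair of the order `τ²`.

If the distance `|X|` of a bounded solution reaches `ρ₁`, then at every smaller distance `ρ₀` the quantity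
`|V|² ρ₀` is also at least `2 M (1 - ρ₀ / ρ₁ - 80 z²)` at some time. So at this time a change of the velocities by
`√(2 M / ρ₀) (ρ₀ / ρ₁ + 341 z²)` leads to an open set of states almost all of which escape. With `ρ₀` of the order of
`ρ₁^(1/3)` this is a change of the order of `ρ₁^(-5/6)`.
-/

set_option autoImplicit false

namespace Pool.Agent.Results.MP_6e7c44_mp.NearlyParabolicExcursions

/-- Phase points of the three bodies in the plane `ℂ`: positions and velocities (product topology). -/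
abbrev Ph := (Fin 3 → ℂ) × (Fin 3 → ℂ)

/-- Newtonian acceleration of body `a`: `∑_{b ≠ a} m_b (q_b - q_a) / |q_b - q_a|^3`. -/
noncomputable def acc (m : Fin 3 → ℝ) (q : Fin 3 → ℂ) (a : Fin 3) : ℂ :=
  ∑ b ∈ Finset.univ.erase a, ((m b / ‖q b - q a‖ ^ 3 : ℝ) : ℂ) * (q b - q a)

/-- The phase space in the centre of mass frame: no collisions, `∑ m_a q_a = 0`, `∑ m_a v_a = 0`. -/
def phaseSpace (m : Fin 3 → ℝ) : Set Ph :=
  {z | (∀ a b, a ≠ b → z.1 a ≠ z.1 b) ∧ ∑ a, (m a : ℂ) * z.1 a = 0 ∧ ∑ a, (m a : ℂ) * z.2 a = 0}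

/-- `x = (q, v)` is a solution of Newton's equations in the centre of mass frame which is defined for all times. -/
def IsSol (m : Fin 3 → ℝ) (x : ℝ → Ph) : Prop :=
  ∀ t, x t ∈ phaseSpace m ∧ HasDerivAt x ((x t).2, acc m (x t).1) t

/-- The mutual distances are periodic functions of time. -/
def IsRelPeriodic (x : ℝ → Ph) : Prop :=
  ∃ T : ℝ, 0 < T ∧ ∀ t a b, ‖(x (t + T)).1 a - (x (t + T)).1 b‖ = ‖(x t).1 a - (x t).1 b‖

/-- The mutual distances are bounded functions of time. -/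
def IsBounded (x : ℝ → Ph) : Prop := ∃ R : ℝ, ∀ t a b, ‖(x t).1 a - (x t).1 b‖ ≤ R

/-- The energy (the sum over the ordered pairs counts every pair twice). -/
noncomputable def energy (m : Fin 3 → ℝ) (z : Ph) : ℝ :=
  (∑ a, m a * ‖z.2 a‖ ^ 2) / 2 -
    (∑ a, ∑ b ∈ Finset.univ.erase a, m a * m b / ‖z.1 b - z.1 a‖) / 2

/-- The angular momentum. -/
noncomputable def angularMomentum (m : Fin 3 → ℝ) (z : Ph) : ℝ :=
  ∑ a, m a * ((starRingEnd ℂ) (z.1 a) * z.2 a).im

/-- The position `X` of the body `c` relative to the centre of mass of the bodies `a` and `b`. -/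
noncomputable def relPosition (m : Fin 3 → ℝ) (a b c : Fin 3) (z : Ph) : ℂ :=
  z.1 c - ((m a : ℂ) * z.1 a + (m b : ℂ) * z.1 b) / ((m a : ℂ) + (m b : ℂ))

/-- The velocity `V` of the body `c` relative to the centre of mass of the bodies `a` and `b`. -/
noncomputable def relVelocity (m : Fin 3 → ℝ) (a b c : Fin 3) (z : Ph) : ℂ :=
  z.2 c - ((m a : ℂ) * z.2 a + (m b : ℂ) * z.2 b) / ((m a : ℂ) + (m b : ℂ))

/-- `m_0 m_1 + m_1 m_2 + m_2 m_0` -/
def pairs (m : Fin 3 → ℝ) : ℝ := m 0 * m 1 + m 1 * m 2 + m 2 * m 0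

/-- `c` is an outer body: `a`, `b`, `c` are the three bodies, `|q_a - q_b| < |X| / 2` and `42 pairs < |X| (-E)`. -/
def IsOuter (m : Fin 3 → ℝ) (E : ℝ) (a b c : Fin 3) (z : Ph) : Prop :=
  (a ≠ b ∧ c ≠ a ∧ c ≠ b) ∧ 2 * ‖z.1 a - z.1 b‖ < ‖relPosition m a b c z‖ ∧
    42 * pairs m < ‖relPosition m a b c z‖ * (-E)

/-- The centre of mass is at rest at the origin. -/
def IsCom (m : Fin 3 → ℝ) (z : Ph) : Prop :=
  ∑ a, (m a : ℂ) * z.1 a = 0 ∧ ∑ a, (m a : ℂ) * z.2 a = 0

/-- `P` holds for almost every state in the centre of mass frame: in all linear coordinates on the space of the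
states `z` with `IsCom m z` it holds Lebesgue almost everywhere. -/
def AlmostEvery (m : Fin 3 → ℝ) (P : Ph → Prop) : Prop :=
  ∀ (d : ℕ) (e : (Fin d → ℝ) → Ph), IsLinearMap ℝ e → Function.Injective e →
    (∀ z, z ∈ Set.range e ↔ IsCom m z) → ∀ᵐ s, P (e s)

/-- `y` is a solution for all times `σ t`, `t ≥ 0`, which starts at `w`: for all positive times if `σ = 1` and for
all negative times if `σ = -1`. -/
def IsHalfSol (m : Fin 3 → ℝ) (σ : ℝ) (w : Ph) (y : ℝ → Ph) : Prop :=
  y 0 = w ∧ ∀ t, 0 ≤ t →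
    y (σ * t) ∈ phaseSpace m ∧ HasDerivAt y ((y (σ * t)).2, acc m (y (σ * t)).1) (σ * t)

/-- The solution which starts at `w` meets no collision and exists for all positive or for all negative times, and in
this direction of time the distances of one of the bodies to the two others tend to infinity. -/
def Escapes (m : Fin 3 → ℝ) (w : Ph) : Prop :=
  ∃ (σ : ℝ) (y : ℝ → Ph) (c : Fin 3), (σ = 1 ∨ σ = -1) ∧ IsHalfSol m σ w y ∧
    ∀ i, i ≠ c → Filter.Tendsto (fun t => ‖(y (σ * t)).1 c - (y (σ * t)).1 i‖) Filter.atTop Filter.atTop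

/-- A change of the velocities by at most `κ` leads from `z` to a state with an open neighbourhood `U` such that no
solution which starts in `U` and is defined for all times is bounded, and almost every state in `U` escapes; in
particular every nonempty open subset of `U` contains states which escape. -/
def EscapeNear (m : Fin 3 → ℝ) (z : Ph) (κ : ℝ) : Prop :=
  ∃ z' ∈ phaseSpace m, z'.1 = z.1 ∧ (∀ i, ‖z'.2 i - z.2 i‖ ≤ κ) ∧
    ∃ U : Set Ph, IsOpen U ∧ z' ∈ U ∧ (∀ y, IsSol m y → y 0 ∈ U → ¬ IsBounded y) ∧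
      AlmostEvery m (fun w => w ∈ U → Escapes m w) ∧
      ∀ W : Set Ph, IsOpen W → W ⊆ U → (∃ w ∈ W, w ∈ phaseSpace m) → ∃ w ∈ W, w ∈ phaseSpace m ∧ Escapes m w

/-- Above this distance the outer motion with the total angular momentum `J` is mainly radial. -/
noncomputable def radius (m : Fin 3 → ℝ) (E J : ℝ) (a b c : Fin 3) : ℝ :=
  8 * (∑ i, m i) * (J ^ 2 + 4 * (m a * m b) ^ 3 / ((m a + m b) * (-E))) / (m c * (m a + m b)) ^ 2

theorem pairs_eq (m : Fin 3 → ℝ) (a b c : Fin 3) (hab : a ≠ b) (hca : c ≠ a) (hcb : c ≠ b) :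
    m a * m b + m b * m c + m c * m a = pairs m := by
  unfold pairs
  fin_cases a <;> fin_cases b <;> fin_cases c <;> simp_all <;> ring

theorem result (m : Fin 3 → ℝ) (hm : ∀ a, 0 < m a) (E : ℝ) (hE : E < 0) :
    -- (0) the relative periodic solutions are bounded; if a distance is large there is an outer body
    (∀ x, IsSol m x → IsRelPeriodic x → IsBounded x) ∧
    (∀ z ∈ phaseSpace m, energy m z = E → (∃ i j, 63 * pairs m < ‖z.1 i - z.1 j‖ * (-E)) →
      ∃ a b c, IsOuter m E a b c z) ∧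
    -- (1) the velocity of the outer body of a bounded solution
    (∀ x, IsSol m x → IsBounded x → energy m (x 0) = E → ∀ t a b c, IsOuter m E a b c (x t) →
      ‖relVelocity m a b c (x t)‖ ^ 2 * ‖relPosition m a b c (x t)‖ ≤
        2 * (∑ i, m i) * (1 + 240 * (m a * m b / (E * ‖relPosition m a b c (x t)‖)) ^ 2)) ∧
    -- (2) almost every state which violates this inequality escapes
    AlmostEvery m (fun w => ∀ a b c, energy m w < 0 → w ∈ phaseSpace m → IsOuter m (energy m w) a b c w →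
      2 * (∑ i, m i) * (1 + 240 * (m a * m b / (energy m w * ‖relPosition m a b c w‖)) ^ 2) <
        ‖relVelocity m a b c w‖ ^ 2 * ‖relPosition m a b c w‖ →
      ∃ (σ P : ℝ) (y : ℝ → Ph), P = inner ℝ (relPosition m a b c w) (relVelocity m a b c w) ∧
        ((0 < P ∧ σ = 1) ∨ (P < 0 ∧ σ = -1)) ∧ IsHalfSol m σ w y ∧
        (∀ t, 0 ≤ t → ‖relPosition m a b c w‖ ^ 2 + 2 * |P| * t ≤ ‖relPosition m a b c (y (σ * t))‖ ^ 2) ∧
        ∀ i, i ≠ c → Filter.Tendsto (fun t => ‖(y (σ * t)).1 c - (y (σ * t)).1 i‖) Filter.atTop Filter.atTop) ∧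
    -- (3) changes of the velocities at an arbitrary state
    (∀ z ∈ phaseSpace m, energy m z = E → ∀ a b c, IsOuter m E a b c z → ∀ κ, 0 ≤ κ →
      2 * (∑ i, m i) * (1 + 260 * (m a * m b / (E * ‖relPosition m a b c z‖)) ^ 2) <
        (‖relVelocity m a b c z‖ + κ) ^ 2 * ‖relPosition m a b c z‖ →
      (‖relVelocity m a b c z‖ + κ) ^ 2 * ‖relPosition m a b c z‖ ≤ 12 / 5 * (∑ i, m i) →
      EscapeNear m z κ) ∧
    -- (4) a bounded solution which reaches the distance `|X(t₁)|` is nearly parabolic at smaller distances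
    (∀ x, IsSol m x → IsBounded x → energy m (x 0) = E → ∀ t₁ a b c, IsOuter m E a b c (x t₁) →
      ∀ ρ₀ ρ₁ z : ℝ, ρ₁ = ‖relPosition m a b c (x t₁)‖ → z = m a * m b / (E * ρ₀) → ρ₀ ≤ ρ₁ →
        42 * pairs m < ρ₀ * (-E) → radius m E (angularMomentum m (x 0)) a b c ≤ ρ₀ →
        ∃ t, ‖relPosition m a b c (x t)‖ = ρ₀ ∧
          2 * (∑ i, m i) * (1 - ρ₀ / ρ₁ - 80 * z ^ 2) ≤ ‖relVelocity m a b c (x t)‖ ^ 2 * ρ₀ ∧
          EscapeNear m (x t) (Real.sqrt (2 * (∑ i, m i) / ρ₀) * (ρ₀ / ρ₁ + 341 * z ^ 2))) ∧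
    -- (5) the power law
    (∀ J : ℝ, ∃ C : ℝ, 0 < C ∧ ∀ x, IsSol m x → IsBounded x → energy m (x 0) = E →
      |angularMomentum m (x 0)| ≤ J → ∀ t₁ i j, C ≤ ‖(x t₁).1 i - (x t₁).1 j‖ →
        ∃ t, EscapeNear m (x t) (C * ‖(x t₁).1 i - (x t₁).1 j‖ ^ (-(5 / 6) : ℝ))) := by
  have hsol : ∀ x, IsSol m x → Pool.Agent.W821.TB.IsSol m Set.univ x := fun x hx =>
    Pool.Agent.W821.TB.isSol_of (fun t => (hx t).1) (fun t => (hx t).2)
  have hsq : ∀ (p z : ℝ), (p / (E * z)) ^ 2 = (p / (z * (-E))) ^ 2 := by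
    intro p z
    have : z * (-E) = -(E * z) := by ring
    rw [this, div_neg, neg_sq]
  have hten : ∀ a b c : Fin 3, a ≠ b → c ≠ a → c ≠ b → ∀ (σ P X0 : ℝ) (y : ℝ → Ph), 0 < P →
      (∀ t, 0 ≤ t → X0 ^ 2 + 2 * P * t ≤ ‖relPosition m a b c (y (σ * t))‖ ^ 2 ∧
        20 * ‖(y (σ * t)).1 a - (y (σ * t)).1 b‖ ≤ ‖relPosition m a b c (y (σ * t))‖) →
      ∀ i, i ≠ c → Filter.Tendsto (fun t => ‖(y (σ * t)).1 c - (y (σ * t)).1 i‖) Filter.atTop Filter.atTop :=
    fun a b c hab hca hcb σ P X0 y hP h i hi =>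
      Pool.Agent.H239.COL.esc_tendsto m hm a b c hab hca hcb σ P X0 hP y h i hi
  have hesc : ∀ a b c : Fin 3, a ≠ b → c ≠ a → c ≠ b → ∀ w : Ph,
      (inner ℝ (relPosition m a b c w) (relVelocity m a b c w) ≠ 0 ∧
      (0 < inner ℝ (relPosition m a b c w) (relVelocity m a b c w) → Pool.Agent.H239.COL.Esc m a b c 1 w) ∧
      (inner ℝ (relPosition m a b c w) (relVelocity m a b c w) < 0 →
        Pool.Agent.H239.COL.Esc m a b c (-1) w)) → Escapes m w := by
    rintro a b c hab hca hcb w ⟨h0, h1, h2⟩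
    rcases lt_or_gt_of_ne h0 with h | h
    · obtain ⟨y, k1, k2, k3⟩ := h2 h
      exact ⟨-1, y, c, Or.inr rfl, ⟨k2, k1⟩, hten a b c hab hca hcb (-1) _ _ y (abs_pos.2 h0) k3⟩
    · obtain ⟨y, k1, k2, k3⟩ := h1 h
      exact ⟨1, y, c, Or.inl rfl, ⟨k2, k1⟩, hten a b c hab hca hcb 1 _ _ y (abs_pos.2 h0) k3⟩
  have hno : ∀ (z : Ph) (κ : ℝ) (a b c : Fin 3), a ≠ b → c ≠ a → c ≠ b →
      (∃ z' ∈ phaseSpace m, z'.1 = z.1 ∧ (∀ i, ‖z'.2 i - z.2 i‖ ≤ κ) ∧
        z' ∈ Pool.Agent.H239.PBS.UU m (∑ i, m i) a b c) → EscapeNear m z κ := by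
    rintro z κ a b c hab hca hcb ⟨z', h1, h2, h3, h4⟩
    have hae : AlmostEvery m (fun w => w ∈ Pool.Agent.H239.PBS.UU m (∑ i, m i) a b c → Escapes m w) := by
      intro d e e1 e2 e3
      filter_upwards [Pool.Agent.H239.COL.aeUU m hm (∑ i, m i) rfl a b c hab hca hcb d e ⟨e1, e2, e3⟩]
        with s hs hU
      exact hesc a b c hab hca hcb (e s) (hs hU)
    refine ⟨z', h1, h2, h3, Pool.Agent.H239.PBS.UU m (∑ i, m i) a b c,
      Pool.Agent.H239.PBS.UU_open m _ a b c, h4, fun y hy hyU =>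
      Pool.Agent.H239.PBS.UU_not m hm _ rfl a b c hab hca hcb (hsol y hy) hyU, hae, ?_⟩
    rintro W hW hWU ⟨w, hw, hwp⟩
    obtain ⟨w', k1, k2, k3⟩ := Pool.Agent.H239.COL.dense_ae m
      (fun w => w ∈ Pool.Agent.H239.PBS.UU m (∑ i, m i) a b c → Escapes m w)
      (fun d e he => hae d e he.1 he.2.1 he.2.2) W hW w hw hwp.2
    have k4 := k3 (hWU k1)
    exact ⟨w', k1, ⟨(hWU k1).1, k2⟩, k4⟩
  have hpr : 0 < pairs m := by
    have h0 := hm 0
    have h1 := hm 1
    have h2 := hm 2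
    unfold pairs
    positivity
  refine ⟨?_, ?_, ?_, ?_, ?_, ?_, ?_⟩
  · rintro x hx ⟨T, hT, h⟩
    exact Pool.Agent.Q85.UB.rel_periodic_bdd (hsol x hx) hT.ne' h
  · rintro z hz hen ⟨i, j, hij⟩
    obtain ⟨a, b, c, hab, hca, hcb, h1, -⟩ := Pool.Agent.H239.PBS.exOut m hm (∑ i, m i) rfl E hE z hz hen
      (pairs m) (fun a b c h1 h2 h3 => pairs_eq m a b c h1 h2 h3) i j (by linarith)
    have h3 := Pool.Agent.H239.PBS.distLe m hm z.1 a b c hab hca hcb h1 i j
    have h1' : ‖z.1 a - z.1 b‖ < ‖relPosition m a b c z‖ / 2 := h1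
    have h3' : ‖z.1 i - z.1 j‖ ≤ 3 / 2 * ‖relPosition m a b c z‖ := h3
    refine ⟨a, b, c, ⟨hab, hca, hcb⟩, by linarith, ?_⟩
    have h4 : ‖z.1 i - z.1 j‖ * (-E) ≤ 3 / 2 * ‖relPosition m a b c z‖ * (-E) := by
      have : 0 ≤ -E := by linarith
      gcongr
    linarith
  · rintro x hx hb hen t a b c ⟨⟨hab, hca, hcb⟩, h1, h2⟩
    have h := Pool.Agent.H239.PBS.outP m hm (∑ i, m i) rfl (hsol x hx) hb E hen hE a b c hab hca hcb t
      (by
        show ‖(x t).1 a - (x t).1 b‖ < ‖relPosition m a b c (x t)‖ / 2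
        linarith)
      (by
        rw [pairs_eq m a b c hab hca hcb]
        show 40 * pairs m < ‖relPosition m a b c (x t)‖ * (-E)
        linarith)
    rw [hsq]
    exact h
  · intro d e e1 e2 e3
    have key : ∀ᵐ s, ∀ a b c : Fin 3, a ≠ b → c ≠ a → c ≠ b →
        (e s ∈ Pool.Agent.H239.PBS.UU m (∑ i, m i) a b c →
        inner ℝ (relPosition m a b c (e s)) (relVelocity m a b c (e s)) ≠ 0 ∧
        (0 < inner ℝ (relPosition m a b c (e s)) (relVelocity m a b c (e s)) →
          Pool.Agent.H239.COL.Esc m a b c 1 (e s)) ∧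
        (inner ℝ (relPosition m a b c (e s)) (relVelocity m a b c (e s)) < 0 →
          Pool.Agent.H239.COL.Esc m a b c (-1) (e s))) := by
      rw [MeasureTheory.ae_all_iff]
      intro a
      rw [MeasureTheory.ae_all_iff]
      intro b
      rw [MeasureTheory.ae_all_iff]
      intro c
      by_cases hab : a ≠ b
      swap
      · exact Filter.Eventually.of_forall fun s h => absurd h hab
      by_cases hca : c ≠ a
      swap
      · exact Filter.Eventually.of_forall fun s _ h => absurd h hca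
      by_cases hcb : c ≠ b
      swap
      · exact Filter.Eventually.of_forall fun s _ _ h => absurd h hcb
      filter_upwards [Pool.Agent.H239.COL.aeUU m hm (∑ i, m i) rfl a b c hab hca hcb d e ⟨e1, e2, e3⟩]
        with s hs _ _ _
      exact hs
    filter_upwards [key] with s hs a b c hEn hph hout hh
    obtain ⟨⟨hab, hca, hcb⟩, h1, h2⟩ := hout
    have hX0 : 0 < ‖relPosition m a b c (e s)‖ := by
      have := norm_nonneg ((e s).1 a - (e s).1 b)
      linarith
    have hy0 : 0 < (‖relPosition m a b c (e s)‖ * (-energy m (e s))) ^ 2 := by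
      have : 0 < -energy m (e s) := by linarith
      positivity
    have hU : e s ∈ Pool.Agent.H239.PBS.UU m (∑ i, m i) a b c := by
      refine ⟨hph.1, hEn, ?_, ?_, ?_⟩
      · show ‖(e s).1 a - (e s).1 b‖ < ‖relPosition m a b c (e s)‖ / 2
        linarith
      · rw [pairs_eq m a b c hab hca hcb]
        show 40 * pairs m < ‖relPosition m a b c (e s)‖ * (-energy m (e s))
        linarith
      · show 2 * (∑ i, m i) * ((‖relPosition m a b c (e s)‖ * (-energy m (e s))) ^ 2 +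
            240 * (m a * m b) ^ 2) < ‖relVelocity m a b c (e s)‖ ^ 2 * ‖relPosition m a b c (e s)‖ *
            (‖relPosition m a b c (e s)‖ * (-energy m (e s))) ^ 2
        have f1 : (m a * m b / (energy m (e s) * ‖relPosition m a b c (e s)‖)) ^ 2 =
            (m a * m b) ^ 2 / (‖relPosition m a b c (e s)‖ * (-energy m (e s))) ^ 2 := by
          rw [div_pow]
          congr 1
          ring
        rw [f1] at hh
        have f2 := mul_lt_mul_of_pos_right hh hy0
        refine lt_of_le_of_lt (le_of_eq ?_) f2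
        generalize ‖relPosition m a b c (e s)‖ * -energy m (e s) = y at hy0
        have hy : y ≠ 0 := fun h => by rw [h] at hy0; norm_num at hy0
        field_simp
    obtain ⟨k0, k1, k2⟩ := hs a b c hab hca hcb hU
    rcases lt_or_gt_of_ne k0 with h | h
    · obtain ⟨y, g1, g2, g3⟩ := k2 h
      exact ⟨-1, _, y, rfl, Or.inr ⟨h, rfl⟩, ⟨g2, g1⟩, fun t ht => (g3 t ht).1,
        hten a b c hab hca hcb (-1) _ _ y (abs_pos.2 k0) g3⟩
    · obtain ⟨y, g1, g2, g3⟩ := k1 h
      exact ⟨1, _, y, rfl, Or.inl ⟨h, rfl⟩, ⟨g2, g1⟩, fun t ht => (g3 t ht).1,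
        hten a b c hab hca hcb 1 _ _ y (abs_pos.2 k0) g3⟩
  · rintro z hz hen a b c ⟨⟨hab, hca, hcb⟩, h1, h2⟩ κ hκ h3 h4
    rw [hsq] at h3
    exact hno z κ a b c hab hca hcb (Pool.Agent.H239.PBS.kickP m hm (∑ i, m i) rfl z hz E hen hE a b c hab hca hcb
      (by
        show ‖z.1 a - z.1 b‖ < ‖relPosition m a b c z‖ / 2
        linarith)
      (by
        rw [pairs_eq m a b c hab hca hcb]
        exact h2) κ hκ h3 h4)
  · rintro x hx hb hen t₁ a b c ⟨⟨hab, hca, hcb⟩, h1, h2⟩ ρ₀ ρ₁ z hρ₁ hz h3 h4 h5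
    have hz2 : z ^ 2 = (m a * m b / (ρ₀ * (-E))) ^ 2 := by rw [hz, hsq]
    obtain ⟨t, k1, k2, k3⟩ := Pool.Agent.H239.PBS.nearB m hm (∑ i, m i) rfl (hsol x hx) hb E hen hE
      |angularMomentum m (x 0)| le_rfl a b c hab hca hcb ρ₀ t₁ (by rw [hρ₁] at h3; exact h3)
      (by
        show ‖(x t₁).1 a - (x t₁).1 b‖ < ‖relPosition m a b c (x t₁)‖ / 2
        linarith)
      (by rw [pairs_eq m a b c hab hca hcb]; exact h4)
      (by rw [sq_abs]; exact h5)
    refine ⟨t, k1, ?_, ?_⟩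
    · rw [hz2, hρ₁]; exact k2
    · rw [hz2, hρ₁]
      exact hno (x t) _ a b c hab hca hcb k3
  · intro J
    obtain ⟨C, hC, h⟩ := Pool.Agent.H239.PBS.power m hm (∑ i, m i) rfl E hE J
    refine ⟨C, hC, fun x hx hb hen hJ t₁ i j hA => ?_⟩
    obtain ⟨t, a, b, c, hab, hca, hcb, k⟩ := h x (hsol x hx) hb hen hJ t₁ i j hA
    exact ⟨t, hno (x t) _ a b c hab hca hcb k⟩

end Pool.Agent.Results.MP_6e7c44_mp.NearlyParabolicExcursions
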